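import Pool.Agent.W_mrdp_h26.GrB

/-! MRDP library, part 8: the DPRM theorem. -/

set_option autoImplicit false

namespace Mrdp

open Nat

/-- **DPRM theorem**, functional form: the graph of every partial recursive function is
Diophantine. (Induction on `Nat.Partrec`.) -/
theorem partrec_DG {f : ℕ →. ℕ} (h : Nat.Partrec f) : DG f := by
  induction h with
  | zero => exact DG.zero
  | succ => exact DG.succ
  | left => exact DG.left
  | right => exact DG.right
  | pair _ _ hf hg => exact DG.pair hf hg
  | comp _ _ hf hg => exact DG.comp hf hg
  | prec _ _ hf hg => exact DG.prec hf hg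
  | rfind _ hf => exact DG.rfind hf

/-- **DPRM theorem**: every recursively enumerable set of natural numbers is Diophantine. -/
theorem re_DP {p : ℕ → Prop} (h : REPred p) : DP (fun v : ℕ → ℕ => p (v 0)) := by
  have h1 : Partrec (fun a : ℕ => (Part.assert (p a) fun _ => Part.some ()).map fun _ => (0 : ℕ)) :=
    Partrec.map h ((Computable.const 0).to₂)
  have h2 : DG (fun a : ℕ => (Part.assert (p a) fun _ => Part.some ()).map fun _ => (0 : ℕ)) :=
    partrec_DG (Partrec.nat_iff.1 h1)
  refine DP.congr (DG.use h2 (DF.var 0) (DF.const 0)) (fun v => ?_)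
  simp [Part.mem_assert_iff]

/-- There is a Diophantine set of natural numbers which is not computable: the halting set
`{n | (Code.eval (ofNat Code n) 0).Dom}` (`ComputablePred.halting_problem`,
`ComputablePred.halting_problem_re`). -/
theorem exists_DP_not_computable :
    ∃ p : ℕ → Prop, DP (fun v : ℕ → ℕ => p (v 0)) ∧ ¬ ComputablePred p := by
  refine ⟨fun n => (Nat.Partrec.Code.eval (Denumerable.ofNat Nat.Partrec.Code n) 0).Dom, ?_, ?_⟩
  · refine re_DP (p := fun n => (Nat.Partrec.Code.eval (Denumerable.ofNat Nat.Partrec.Code n) 0).Dom)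
      ?_
    have h := ComputablePred.halting_problem_re 0
    exact Partrec.comp (β := Nat.Partrec.Code) h (Computable.ofNat Nat.Partrec.Code)
  · rintro ⟨D, h⟩
    apply ComputablePred.halting_problem 0
    have h1 : Computable (Encodable.encode : Nat.Partrec.Code → ℕ) := Computable.encode
    have h2 := h.comp h1
    have h3 : ComputablePred (fun c : Nat.Partrec.Code =>
        (Nat.Partrec.Code.eval (Denumerable.ofNat Nat.Partrec.Code (Encodable.encode c)) 0).Dom) :=
      ⟨fun c => D (Encodable.encode c), h2⟩
    exact ComputablePred.of_eq h3 (fun c => by rw [Denumerable.ofNat_encode])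

end Mrdp
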