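import Pool.Agent.W_mrdp_h26.Base

/-! MRDP library, part 1: finitely many dummies, majorants, congruences for polynomials. -/

set_option autoImplicit false

namespace Mrdp

variable {α : Type}

theorem Poly_mono_support {β : Type} {p : Poly (α ⊕ β)} {F F' : Finset β} (hF : F ⊆ F')
    (q : Poly (α ⊕ {b // b ∈ F})) (h : p = q.map (Sum.map id Subtype.val)) :
    ∃ q' : Poly (α ⊕ {b // b ∈ F'}), p = q'.map (Sum.map id Subtype.val) := by
  refine ⟨q.map (Sum.map id fun b => ⟨b.1, hF b.2⟩), ?_⟩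
  rw [h]
  ext v
  rw [Poly.map_apply, Poly.map_apply, Poly.map_apply]
  congr 1
  funext i
  cases i <;> rfl

/-- A polynomial over `α ⊕ β` uses only finitely many variables of `β`.
Proof: `IsPoly`/`Poly.induction`. `proj (inl a)`: `F = ∅`; `proj (inr b)`: `F = {b}`;
`const`: `F = ∅`; `sub`, `mul`: `F₁ ∪ F₂`, mapping the index type of `F₁` and `F₂` into the one of
`F₁ ∪ F₂`. -/
theorem poly_fin_support {β : Type} (p : Poly (α ⊕ β)) :
    ∃ (F : Finset β) (q : Poly (α ⊕ {b // b ∈ F})),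
      p = q.map (Sum.map id Subtype.val) := by
  classical
  induction p using Poly.induction with
  | H1 i =>
    rcases i with a | b
    · exact ⟨∅, Poly.proj (Sum.inl a), rfl⟩
    · exact ⟨{b}, Poly.proj (Sum.inr ⟨b, Finset.mem_singleton_self b⟩), rfl⟩
  | H2 n => exact ⟨∅, Poly.const n, rfl⟩
  | H3 f g hf hg =>
    obtain ⟨F₁, q₁, h₁⟩ := hf
    obtain ⟨F₂, q₂, h₂⟩ := hg
    obtain ⟨r₁, e₁⟩ := Poly_mono_support (F' := F₁ ∪ F₂) Finset.subset_union_left q₁ h₁
    obtain ⟨r₂, e₂⟩ := Poly_mono_support (F' := F₁ ∪ F₂) Finset.subset_union_right q₂ h₂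
    refine ⟨F₁ ∪ F₂, r₁ - r₂, ?_⟩
    rw [e₁, e₂]
    rfl
  | H4 f g hf hg =>
    obtain ⟨F₁, q₁, h₁⟩ := hf
    obtain ⟨F₂, q₂, h₂⟩ := hg
    obtain ⟨r₁, e₁⟩ := Poly_mono_support (F' := F₁ ∪ F₂) Finset.subset_union_left q₁ h₁
    obtain ⟨r₂, e₂⟩ := Poly_mono_support (F' := F₁ ∪ F₂) Finset.subset_union_right q₂ h₂
    refine ⟨F₁ ∪ F₂, r₁ * r₂, ?_⟩
    rw [e₁, e₂]
    rfl

/-- A Diophantine predicate can be written with finitely many dummy variables.
Proof: `poly_fin_support`, then transport along `F ≃ Fin n` (`Finset.equivFin`); an assignment of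
the variables in `F` extends to `β` by zero. -/
theorem DP.finDummies {P : (α → ℕ) → Prop} (h : DP P) :
    ∃ (n : ℕ) (p : Poly (α ⊕ Fin n)), ∀ v, P v ↔ ∃ t : Fin n → ℕ, p (Sum.elim v t) = 0 := by
  classical
  obtain ⟨β, p, hp⟩ := h
  obtain ⟨F, q, hq⟩ := poly_fin_support p
  refine ⟨F.card, q.map (Sum.map id F.equivFin), fun v => ?_⟩
  have h1 : P v ↔ ∃ t : β → ℕ, p (Sum.elim v t) = 0 := hp v
  rw [h1]
  constructor
  · rintro ⟨t, ht⟩
    refine ⟨fun i => t (F.equivFin.symm i).1, ?_⟩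
    rw [hq, Poly.map_apply] at ht
    rw [Poly.map_apply, ← ht]
    congr 1
    funext i
    rcases i with a | b
    · rfl
    · show t (F.equivFin.symm (F.equivFin b)).1 = t b.1
      rw [Equiv.symm_apply_apply]
  · rintro ⟨t, ht⟩
    refine ⟨fun b => if hb : b ∈ F then t (F.equivFin ⟨b, hb⟩) else 0, ?_⟩
    rw [Poly.map_apply] at ht
    rw [hq, Poly.map_apply, ← ht]
    congr 1
    funext i
    rcases i with a | b
    · rfl
    · show (if hb : b.1 ∈ F then t (F.equivFin ⟨b.1, hb⟩) else 0) = t (F.equivFin b)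
      rw [dif_pos b.2]

/-- Monotone majorant. Proof: `Poly.induction`: `proj i` ↦ itself; `const n` ↦ `const |n|`;
`f - g` and `f * g` ↦ sum and product of the majorants. -/
theorem poly_major {γ : Type} (p : Poly γ) :
    ∃ q : Poly γ, (∀ v, 0 ≤ q v) ∧ (∀ v w : γ → ℕ, (∀ i, v i ≤ w i) → q v ≤ q w) ∧
      ∀ v, |p v| ≤ q v := by
  induction p using Poly.induction with
  | H1 i =>
    refine ⟨Poly.proj i, fun v => ?_, fun v w h => ?_, fun v => ?_⟩
    · rw [Poly.proj_apply]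
      exact Int.natCast_nonneg _
    · rw [Poly.proj_apply, Poly.proj_apply]
      exact_mod_cast h i
    · rw [Poly.proj_apply, abs_of_nonneg (Int.natCast_nonneg _)]
  | H2 n =>
    refine ⟨Poly.const |n|, fun v => ?_, fun v w h => ?_, fun v => ?_⟩
    · rw [Poly.const_apply]
      exact abs_nonneg n
    · rw [Poly.const_apply, Poly.const_apply]
    · rw [Poly.const_apply, Poly.const_apply]
  | H3 f g hf hg =>
    obtain ⟨q₁, a₁, b₁, c₁⟩ := hf
    obtain ⟨q₂, a₂, b₂, c₂⟩ := hg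
    refine ⟨q₁ + q₂, fun v => ?_, fun v w h => ?_, fun v => ?_⟩
    · rw [Poly.add_apply]
      exact add_nonneg (a₁ v) (a₂ v)
    · rw [Poly.add_apply, Poly.add_apply]
      exact add_le_add (b₁ v w h) (b₂ v w h)
    · rw [Poly.add_apply, Poly.sub_apply]
      exact (abs_sub _ _).trans (add_le_add (c₁ v) (c₂ v))
  | H4 f g hf hg =>
    obtain ⟨q₁, a₁, b₁, c₁⟩ := hf
    obtain ⟨q₂, a₂, b₂, c₂⟩ := hg
    refine ⟨q₁ * q₂, fun v => ?_, fun v w h => ?_, fun v => ?_⟩
    · rw [Poly.mul_apply]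
      exact mul_nonneg (a₁ v) (a₂ v)
    · rw [Poly.mul_apply, Poly.mul_apply]
      exact mul_le_mul (b₁ v w h) (b₂ v w h) (a₂ v) (a₁ w)
    · rw [Poly.mul_apply, Poly.mul_apply, abs_mul]
      exact mul_le_mul (c₁ v) (c₂ v) (abs_nonneg _) (a₁ v)

/-- Polynomials respect congruences. Proof: `Poly.induction`. -/
theorem poly_modEq {γ : Type} (p : Poly γ) (m : ℤ) {v w : γ → ℕ}
    (h : ∀ i, (v i : ℤ) ≡ (w i : ℤ) [ZMOD m]) : p v ≡ p w [ZMOD m] := by
  induction p using Poly.induction with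
  | H1 i => exact h i
  | H2 n => exact Int.ModEq.refl _
  | H3 f g hf hg => exact hf.sub hg
  | H4 f g hf hg => exact hf.mul hg

end Mrdp
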