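import Mathlib

/-! MRDP library, part 5: the number theoretic core of the bounded quantifier theorem
(Davis, Hilbert's tenth problem is unsolvable, Theorem 5.1). Everything over Mathlib. -/

set_option autoImplicit false

namespace Mrdp

open Nat

theorem Num_cop {t y k l : ℕ} (ht : ∀ d, 0 < d → d ≤ y → d ∣ t) (hkl : k < l) (hl : l < y) :
    Nat.Coprime (1 + (k + 1) * t) (1 + (l + 1) * t) := by
  refine Nat.coprime_of_dvd fun p hp h1 h2 => ?_
  obtain ⟨d, rfl⟩ := Nat.exists_eq_add_of_lt hkl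
  have h3 : p ∣ (d + 1) * t := by
    have h4 : 1 + (k + d + 1 + 1) * t = (1 + (k + 1) * t) + (d + 1) * t := by ring
    rw [h4] at h2
    exact (Nat.dvd_add_right h1).1 h2
  have h5 : p ∣ t := by
    rcases hp.dvd_mul.1 h3 with h | h
    · exact h.trans (ht (d + 1) (by omega) (by omega))
    · exact h
  have h6 : p ∣ 1 := (Nat.dvd_add_left (h5.mul_left _)).1 h1
  exact hp.one_lt.ne' (Nat.dvd_one.1 h6)

/-- If every `0 < d ≤ y` divides `t`, the numbers `1 + (k+1) t`, `k < y` are pairwise coprime.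
A prime dividing two of them divides `(k - l) t`, and is prime to `t`, so it divides `|k-l| ≤ y`,
so it divides `t`. -/
theorem md_coprime {t y k l : ℕ} (ht : ∀ d, 0 < d → d ≤ y → d ∣ t) (hk : k < y) (hl : l < y)
    (hkl : k ≠ l) : Nat.Coprime (1 + (k + 1) * t) (1 + (l + 1) * t) := by
  rcases lt_or_gt_of_ne hkl with h | h
  · exact Num_cop ht h hl
  · exact (Num_cop ht h hk).symm

/-- For `0 < y`, `0 < t` the product `∏_{k<y} (1 + (k+1) t)` has the form `1 + (c+1) t`.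
(Induction on `y`.) -/
theorem exists_c {t y : ℕ} (hy : 0 < y) (ht : 0 < t) :
    ∃ c, 1 + (c + 1) * t = ∏ k ∈ Finset.range y, (1 + (k + 1) * t) := by
  obtain ⟨y, rfl⟩ : ∃ z, y = z + 1 := ⟨y - 1, by omega⟩
  clear hy
  induction y with
  | zero => exact ⟨0, by simp⟩
  | succ y ih =>
    obtain ⟨c, hc⟩ := ih
    refine ⟨c + (y + 2) + (c + 1) * (y + 2) * t, ?_⟩
    rw [Finset.prod_range_succ, ← hc]
    ring

/-- `c ≡ k` modulo every divisor `m` of `1 + (k+1) t` that also divides `1 + (c+1) t`. -/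
theorem c_modEq {t c k m : ℕ} (h1 : m ∣ 1 + (k + 1) * t) (h2 : m ∣ 1 + (c + 1) * t) :
    (c : ℤ) ≡ (k : ℤ) [ZMOD (m : ℤ)] := by
  rw [Int.modEq_iff_dvd]
  have h1' : (m : ℤ) ∣ 1 + ((k : ℤ) + 1) * t := by exact_mod_cast h1
  have h2' : (m : ℤ) ∣ 1 + ((c : ℤ) + 1) * t := by exact_mod_cast h2
  have h3 : (k : ℤ) - c = (k - c) * (1 + ((k : ℤ) + 1) * t) -
      (k + 1) * ((1 + ((k : ℤ) + 1) * t) - (1 + ((c : ℤ) + 1) * t)) := by ring
  rw [h3]
  exact dvd_sub (h1'.mul_left _) ((dvd_sub h1' h2').mul_left _)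

/-- A prime `p` dividing `a.descFactorial (u+1)` gives a `j ≤ u` with `a ≡ j [MOD p]`.
(`descFactorial = ∏_{i<u+1} (a - i)`, `Nat.descFactorial_eq_prod_range`; the truncated factor is
fine: if `a - i = 0` because `a ≤ i ≤ u` take `j = a`.) -/
theorem exists_modEq_of_dvd_descFactorial {p a u : ℕ} (hp : p.Prime)
    (h : p ∣ a.descFactorial (u + 1)) : ∃ j, j ≤ u ∧ (a : ℤ) ≡ (j : ℤ) [ZMOD (p : ℤ)] := by
  rw [Nat.descFactorial_eq_prod_range, hp.prime.dvd_finsetProd_iff] at h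
  obtain ⟨i, hi, h⟩ := h
  rw [Finset.mem_range] at hi
  rcases le_or_gt i a with h1 | h1
  · refine ⟨i, by omega, ?_⟩
    rw [Int.modEq_iff_dvd, ← dvd_neg, neg_sub, ← Nat.cast_sub h1]
    exact_mod_cast h
  · exact ⟨a, by omega, Int.ModEq.refl _⟩

/-- If `a ≡ j [MOD m]` with `j ≤ u` then `m ∣ a.descFactorial (u+1)`.
(If `a ≥ j` the factor `a - j` is divisible by `m`; if `a < j ≤ u` the product is `0`.) -/
theorem dvd_descFactorial_of_modEq {m a j u : ℕ} (hj : j ≤ u) (h : a ≡ j [MOD m]) :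
    m ∣ a.descFactorial (u + 1) := by
  rcases le_or_gt j a with h1 | h1
  · rw [Nat.descFactorial_eq_prod_range]
    refine dvd_trans ?_ (Finset.dvd_prod_of_mem _ (Finset.mem_range.2 (by omega : j < u + 1)))
    exact (Nat.modEq_iff_dvd' h1).1 h.symm
  · rw [Nat.descFactorial_eq_zero_iff_lt.2 (by omega)]
    exact dvd_zero _

/-- Soundness. For `k < y` let `p` be a prime factor of `1 + (k+1) Q!`; `p > Q`. By `c_modEq`
`c ≡ k [MOD p]`, by `exists_modEq_of_dvd_descFactorial` `a i ≡ j i [MOD p]`, `j i ≤ u`. So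
`F k j ≡ F c a ≡ 0 [MOD p]` and `|F k j| ≤ Q < p`, so `F k j = 0`. -/
theorem ball_sound {n : ℕ} (F : ℕ → (Fin n → ℕ) → ℤ)
    (hF : ∀ (m : ℤ) (k k' : ℕ) (t t' : Fin n → ℕ), (k : ℤ) ≡ (k' : ℤ) [ZMOD m] →
      (∀ i, (t i : ℤ) ≡ (t' i : ℤ) [ZMOD m]) → F k t ≡ F k' t' [ZMOD m])
    (y u Q c : ℕ) (a : Fin n → ℕ)
    (hQ : ∀ k < y, ∀ t : Fin n → ℕ, (∀ i, t i ≤ u) → |F k t| ≤ (Q : ℤ))
    (hc : 1 + (c + 1) * Q ! = ∏ k ∈ Finset.range y, (1 + (k + 1) * Q !))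
    (ha : ∀ i, 1 + (c + 1) * Q ! ∣ (a i).descFactorial (u + 1))
    (hFa : ((1 + (c + 1) * Q ! : ℕ) : ℤ) ∣ F c a) :
    ∀ k < y, ∃ t : Fin n → ℕ, (∀ i, t i ≤ u) ∧ F k t = 0 := by
  intro k hk
  obtain ⟨p, hp, hpd⟩ := Nat.exists_prime_and_dvd (n := 1 + (k + 1) * Q !)
    (by have := Nat.mul_pos (Nat.succ_pos k) (Nat.factorial_pos Q); rw [Nat.succ_eq_add_one] at this; omega)
  have hpQ : Q < p := by
    by_contra hc'
    have h1 : p ∣ Q ! := (Nat.dvd_factorial hp.pos (by omega))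
    have h2 : p ∣ 1 := (Nat.dvd_add_left (h1.mul_left _)).1 hpd
    exact hp.one_lt.ne' (Nat.dvd_one.1 h2)
  have hpc : p ∣ 1 + (c + 1) * Q ! := by
    rw [hc]
    exact hpd.trans (Finset.dvd_prod_of_mem (fun k => 1 + (k + 1) * Q !) (Finset.mem_range.2 hk))
  have hck := c_modEq hpd hpc
  have ht : ∀ i, ∃ j, j ≤ u ∧ (a i : ℤ) ≡ (j : ℤ) [ZMOD (p : ℤ)] := fun i =>
    exists_modEq_of_dvd_descFactorial hp (hpc.trans (ha i))
  choose t ht1 ht2 using ht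
  refine ⟨t, ht1, ?_⟩
  have h3 : F c a ≡ F k t [ZMOD (p : ℤ)] := hF p c k a t hck ht2
  have h4 : (p : ℤ) ∣ F c a := (Int.natCast_dvd_natCast.2 hpc).trans hFa
  have h5 : (p : ℤ) ∣ F k t := (Int.modEq_zero_iff_dvd).1 (h3.symm.trans (Int.modEq_zero_iff_dvd.2 h4))
  have h6 := hQ k hk t ht1
  exact Int.eq_zero_of_abs_lt_dvd h5 (h6.trans_lt (by exact_mod_cast hpQ))

/-- Completeness. `exists_c` gives `c`; the moduli `m k = 1 + (k+1) Q!` are pairwise coprime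
(`md_coprime`, `y ≤ Q`); CRT (`Nat.chineseRemainderOfFinset` or by induction) gives `a i` with
`a i ≡ t k i [MOD m k]` for all `k < y`; then `m k ∣ (a i).descFactorial (u+1)` and
`m k ∣ F c a` (as `F c a ≡ F k (t k) = 0`), and the product of pairwise coprime divisors divides
(`Finset.prod_dvd_of_coprime`). -/
theorem ball_complete {n : ℕ} (F : ℕ → (Fin n → ℕ) → ℤ)
    (hF : ∀ (m : ℤ) (k k' : ℕ) (t t' : Fin n → ℕ), (k : ℤ) ≡ (k' : ℤ) [ZMOD m] →
      (∀ i, (t i : ℤ) ≡ (t' i : ℤ) [ZMOD m]) → F k t ≡ F k' t' [ZMOD m])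
    (y u Q : ℕ) (hy : 0 < y) (hyQ : y ≤ Q)
    (h : ∀ k < y, ∃ t : Fin n → ℕ, (∀ i, t i ≤ u) ∧ F k t = 0) :
    ∃ (c : ℕ) (a : Fin n → ℕ),
      1 + (c + 1) * Q ! = ∏ k ∈ Finset.range y, (1 + (k + 1) * Q !) ∧
      (∀ i, 1 + (c + 1) * Q ! ∣ (a i).descFactorial (u + 1)) ∧
      ((1 + (c + 1) * Q ! : ℕ) : ℤ) ∣ F c a := by
  classical
  have hdv : ∀ d, 0 < d → d ≤ y → d ∣ Q ! := fun d h1 h2 => Nat.dvd_factorial h1 (h2.trans hyQ)
  obtain ⟨c, hc⟩ := exists_c hy (Nat.factorial_pos Q)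
  choose! T hT1 hT2 using h
  have hcop : ∀ k < y, ∀ l < y, k ≠ l → Nat.Coprime (1 + (k + 1) * Q !) (1 + (l + 1) * Q !) :=
    fun k hk l hl hkl => md_coprime hdv hk hl hkl
  have hA : ∀ i : Fin n, ∃ a : ℕ, ∀ k < y, a ≡ T k i [MOD (1 + (k + 1) * Q !)] := by
    intro i
    have hp : Set.Pairwise (Finset.range y : Set ℕ)
        (Function.onFun Nat.Coprime fun k => 1 + (k + 1) * Q !) := by
      intro k hk l hl hkl
      exact hcop k (by simpa using hk) l (by simpa using hl) hkl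
    have h := Nat.chineseRemainderOfFinset (fun k => T k i) (fun k => 1 + (k + 1) * Q !)
      (Finset.range y) (fun k _ => by positivity) hp
    exact ⟨h.1, fun k hk => h.2 k (Finset.mem_range.2 hk)⟩
  choose a ha using hA
  have hmc : ∀ k < y, 1 + (k + 1) * Q ! ∣ 1 + (c + 1) * Q ! := by
    intro k hk
    rw [hc]
    exact Finset.dvd_prod_of_mem (fun k => 1 + (k + 1) * Q !) (Finset.mem_range.2 hk)
  have hprod : ∀ z : ℤ, (∀ k < y, ((1 + (k + 1) * Q ! : ℕ) : ℤ) ∣ z) →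
      ((1 + (c + 1) * Q ! : ℕ) : ℤ) ∣ z := by
    intro z hz
    rw [hc, Nat.cast_prod]
    refine Finset.prod_dvd_of_coprime ?_ (fun k hk => hz k (Finset.mem_range.1 hk))
    intro k hk l hl hkl
    exact Nat.isCoprime_iff_coprime.2 (hcop k (by simpa using hk) l (by simpa using hl) hkl)
  refine ⟨c, a, hc, fun i => ?_, ?_⟩
  · refine Int.natCast_dvd_natCast.1 (hprod _ fun k hk => ?_)
    exact Int.natCast_dvd_natCast.2 (dvd_descFactorial_of_modEq (hT1 k hk i) (ha i k hk))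
  · refine hprod _ fun k hk => ?_
    have h1 : (c : ℤ) ≡ (k : ℤ) [ZMOD ((1 + (k + 1) * Q ! : ℕ) : ℤ)] :=
      c_modEq (dvd_refl _) (hmc k hk)
    have h2 := hF _ c k a (T k) h1 (fun i => (Int.natCast_modEq_iff).2 (ha i k hk))
    rw [hT2 k hk] at h2
    exact Int.modEq_zero_iff_dvd.1 h2

end Mrdp
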