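import Pool.Agent.W_mrdp_h26.Fact

/-! MRDP library, part 4: the product `∏_{k<y} (1 + (k+1) t)` is Diophantine. -/

set_option autoImplicit false

namespace Mrdp

open Nat

theorem Prod_asc (t y q : ℕ) :
    ∏ k ∈ Finset.range y, (t * q + (k + 1) * t) = t ^ y * y ! * (q + y).choose y := by
  have h1 : ∏ k ∈ Finset.range y, (t * q + (k + 1) * t) =
      ∏ k ∈ Finset.range y, (t * (q + 1 + k)) := by
    refine Finset.prod_congr rfl fun k _ => ?_
    ring
  rw [h1, Finset.prod_mul_distrib, Finset.prod_const, Finset.card_range, mul_assoc,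
    ← Nat.ascFactorial_eq_factorial_mul_choose, Nat.ascFactorial_eq_prod_range]

theorem Prod_le (t y : ℕ) :
    ∏ k ∈ Finset.range y, (1 + (k + 1) * t) ≤ (1 + t * y) ^ y := by
  calc ∏ k ∈ Finset.range y, (1 + (k + 1) * t) ≤ ∏ _k ∈ Finset.range y, (1 + t * y) := by
        refine Finset.prod_le_prod' fun k hk => ?_
        have hk' := Finset.mem_range.1 hk
        have : (k + 1) * t ≤ y * t := Nat.mul_le_mul_right t hk'
        nlinarith
    _ = (1 + t * y) ^ y := by rw [Finset.prod_const, Finset.card_range]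

theorem Prod_modEq {m a b : ℕ} (h : a ≡ b [MOD m]) (f : ℕ → ℕ) (y : ℕ) :
    (∏ k ∈ Finset.range y, (a + f k)) ≡ (∏ k ∈ Finset.range y, (b + f k)) [MOD m] := by
  induction y with
  | zero => exact Nat.ModEq.refl _
  | succ y ih =>
    rw [Finset.prod_range_succ, Finset.prod_range_succ]
    exact Nat.ModEq.mul ih (Nat.ModEq.add_right _ h)

/-- With `W = (1+ty)^y`, `M = tW+1`, `q = (t-1)W+1` one has `t q = tM - (M-1) ≡ 1 [MOD M]`, so
`∏_{k<y} (1+(k+1)t) ≡ ∏ (t q + (k+1) t) = t^y ∏_{k<y} (q+(k+1)) = t^y * y! * C(q+y, y) [MOD M]`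
(`Nat.ascFactorial`), and `∏ (1+(k+1)t) ≤ W < M`. -/
theorem prod_formula (t y : ℕ) (ht : 0 < t) :
    ∏ k ∈ Finset.range y, (1 + (k + 1) * t) =
      (t ^ y * y ! * ((t - 1) * (1 + t * y) ^ y + 1 + y).choose y) % (t * (1 + t * y) ^ y + 1) := by
  rw [← Prod_asc t y ((t - 1) * (1 + t * y) ^ y + 1)]
  have h1 : ∏ k ∈ Finset.range y, (1 + (k + 1) * t) < t * (1 + t * y) ^ y + 1 := by
    have h2 := Prod_le t y
    have h3 : (1 + t * y) ^ y ≤ t * (1 + t * y) ^ y := Nat.le_mul_of_pos_left _ ht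
    omega
  have h5 : 1 ≡ t * ((t - 1) * (1 + t * y) ^ y + 1) [MOD t * (1 + t * y) ^ y + 1] := by
    obtain ⟨s, rfl⟩ : ∃ s, t = s + 1 := ⟨t - 1, by omega⟩
    have h6 : (s + 1) * ((s + 1 - 1) * (1 + (s + 1) * y) ^ y + 1) =
        1 + s * ((s + 1) * (1 + (s + 1) * y) ^ y + 1) := by
      rw [Nat.add_sub_cancel]
      ring
    rw [h6]
    exact (Nat.modEq_iff_dvd' (by omega)).2 (by simp)
  have h4 := Prod_modEq h5 (fun k => (k + 1) * t) y
  rw [← Nat.mod_eq_of_lt h1]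
  exact h4

theorem DF.prodRange {α : Type} {f g : (α → ℕ) → ℕ} (hf : DF f) (hg : DF g) :
    DF (fun v => ∏ k ∈ Finset.range (g v), (1 + (k + 1) * f v)) := by
  refine DF.comp2 (F := fun t y => ∏ k ∈ Finset.range y, (1 + (k + 1) * t)) ?_ hf hg
  have e0 : DF (fun v : ℕ → ℕ => v 0) := DF.var 0
  have e1 : DF (fun v : ℕ → ℕ => v 1) := DF.var 1
  have e2 : DF (fun v : ℕ → ℕ => v 2) := DF.var 2
  have c1 : DF (fun _ : ℕ → ℕ => 1) := DF.const 1
  have c0 : DF (fun _ : ℕ → ℕ => 0) := DF.const 0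
  have w : DF (fun v : ℕ → ℕ => (1 + v 1 * v 2) ^ v 2) := DF.pow (DF.add c1 (DF.mul e1 e2)) e2
  have a : DF (fun v : ℕ → ℕ => v 1 ^ v 2 * (v 2)! *
      ((v 1 - 1) * (1 + v 1 * v 2) ^ v 2 + 1 + v 2).choose (v 2)) :=
    DF.mul (DF.mul (DF.pow e1 e2) (DF.factorial e2))
      (DF.choose (DF.add (DF.add (DF.mul (DF.sub e1 c1) w) c1) e2) e2)
  have b : DF (fun v : ℕ → ℕ => v 1 * (1 + v 1 * v 2) ^ v 2 + 1) := DF.add (DF.mul e1 w) c1
  refine DP.congr (DP.or (DP.and (DP.eq e1 c0) (DP.eq e0 c1))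
    (DP.and (DP.lt c0 e1) (DP.eq e0 (DF.mod a b)))) (fun v => ?_)
  rcases Nat.eq_zero_or_pos (v 1) with h | h
  · have h1 : ∏ k ∈ Finset.range (v 2), (1 + (k + 1) * v 1) = 1 := by
      rw [h]
      simp
    constructor
    · rintro (⟨_, h2⟩ | ⟨h2, _⟩)
      · show v 0 = ∏ k ∈ Finset.range (v 2), (1 + (k + 1) * v 1)
        rw [h1]
        exact h2
      · omega
    · intro h2
      left
      refine ⟨h, ?_⟩
      have h3 : v 0 = ∏ k ∈ Finset.range (v 2), (1 + (k + 1) * v 1) := h2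
      rw [h1] at h3
      exact h3
  · have h1 := prod_formula (v 1) (v 2) h
    constructor
    · rintro (⟨h2, _⟩ | ⟨_, h2⟩)
      · omega
      · exact h2.trans h1.symm
    · intro h2
      right
      exact ⟨h, Eq.trans h2 h1⟩

end Mrdp
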