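import Pool.Agent.W_mrdp_h26.Poly
import Pool.Agent.W_mrdp_h26.Prod
import Pool.Agent.W_mrdp_h26.Num

/-! MRDP library, part 6: the bounded quantifier theorem. -/

set_option autoImplicit false

namespace Mrdp

open Nat

/-- The assignment `k, x 0, x 1, ...`. -/
def cons (k : ℕ) (x : ℕ → ℕ) : ℕ → ℕ
  | 0 => k
  | i + 1 => x i

/-- The renaming of the variables of `q`: all dummies become `u`. -/
def Ball_sig {n : ℕ} : ℕ ⊕ Fin n → ℕ ⊕ Option (Option (Fin n))
  | Sum.inl i => Sum.inl i
  | Sum.inr _ => Sum.inr none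

/-- The renaming of the variables of `p`: the variable `0` becomes `c`, the dummies become `a`. -/
def Ball_rho {n : ℕ} : ℕ ⊕ Fin n → ℕ ⊕ Option (Option (Fin n))
  | Sum.inl 0 => Sum.inr (some none)
  | Sum.inl (i + 1) => Sum.inl (i + 1)
  | Sum.inr i => Sum.inr (some (some i))

/-- The value of `Q`. -/
def Ball_Q {n : ℕ} (q : Poly (ℕ ⊕ Fin n)) (w : ℕ ⊕ Option (Option (Fin n)) → ℕ) : ℕ :=
  (q.map Ball_sig w).natAbs + w (Sum.inl 0)

/-- The existential condition. -/
def Ball_T {n : ℕ} (p q : Poly (ℕ ⊕ Fin n)) (w : ℕ ⊕ Option (Option (Fin n)) → ℕ) : Prop :=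
  0 < w (Sum.inl 0) ∧
  1 + (w (Sum.inr (some none)) + 1) * (Ball_Q q w)! =
    ∏ k ∈ Finset.range (w (Sum.inl 0)), (1 + (k + 1) * (Ball_Q q w)!) ∧
  (∀ i : Fin n, 1 + (w (Sum.inr (some none)) + 1) * (Ball_Q q w)! ∣
    (w (Sum.inr (some (some i)))).descFactorial (w (Sum.inr none) + 1)) ∧
  1 + (w (Sum.inr (some none)) + 1) * (Ball_Q q w)! ∣ (p.map Ball_rho w).natAbs

theorem Ball_dioph {n : ℕ} (p q : Poly (ℕ ⊕ Fin n)) : DP (Ball_T p q) := by
  have hQ : DF (Ball_Q q) := DF.add (DF.natAbs_poly (q.map Ball_sig)) (DF.var (Sum.inl 0))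
  have hQf : DF (fun w => (Ball_Q q w)!) := DF.factorial hQ
  have hM : DF (fun w : ℕ ⊕ Option (Option (Fin n)) → ℕ =>
      1 + (w (Sum.inr (some none)) + 1) * (Ball_Q q w)!) :=
    DF.add (DF.const 1) (DF.mul (DF.add (DF.var (Sum.inr (some none))) (DF.const 1)) hQf)
  refine DP.and (DP.lt (DF.const 0) (DF.var (Sum.inl 0))) (DP.and ?_ (DP.and ?_ ?_))
  · exact DP.eq hM (DF.prodRange hQf (DF.var (Sum.inl 0)))
  · exact DP.forallFin fun i => DP.dvd hM (DF.descFactorial (DF.var (Sum.inr (some (some i))))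
      (DF.add (DF.var (Sum.inr none)) (DF.const 1)))
  · exact DP.dvd hM (DF.natAbs_poly (p.map Ball_rho))

/-- The bounded quantifier theorem in normal form. Let `p`, `n` be as in `DP.finDummies` for the
hypothesis, `q` a majorant of `p` (`poly_major`). For an assignment `v` put `y = v 0`,
`x i = v (i+1)`, `F k t = p (Sum.elim (cons k x) t)` and
`Q(u) = (q (Sum.elim (cons y x) (fun _ => u))).toNat + y`. Then (`ball_sound`, `ball_complete`)
`∀ z < y, P z x` iff `y = 0`, or there are `u, c` and a block `a : Fin n → ℕ` with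
`0 < y`, `1 + (c+1) Q! = ∏_{k<y} (1 + (k+1) Q!)`, `1 + (c+1) Q! ∣ (a i).descFactorial (u+1)` for
all `i`, `1 + (c+1) Q! ∣ F c a` (`natAbs`). (For the direction from left to right choose for each
`k < y` a solution `t k` and `u` larger than all its entries.) All these are Diophantine: `DP.ex`,
`DP.exBlock`, `DP.forallFin`, `DF.prodRange`, `DF.factorial`, `DF.descFactorial`,
`DF.natAbs_poly` (note `q ≥ 0`, so `toNat = natAbs`; use `Poly.map` for renaming variables). -/
theorem DP.ballBase {P : ℕ → (ℕ → ℕ) → Prop}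
    (h : DP (fun v : ℕ → ℕ => P (v 0) (fun i => v (i + 1)))) :
    DP (fun v : ℕ → ℕ => ∀ z < v 0, P z (fun i => v (i + 1))) := by
  classical
  obtain ⟨n, p, hp⟩ := DP.finDummies h
  obtain ⟨q, q0, qm, qb⟩ := poly_major p
  have hex : DP (fun v : ℕ → ℕ =>
      ∃ b : Option (Option (Fin n)) → ℕ, Ball_T p q (Sum.elim v b)) := by
    refine DP.exBlock (P := fun v b => Ball_T p q (Sum.elim v b)) ?_
    refine DP.congr (Ball_dioph p q) fun w => ?_
    have e : (Sum.elim (fun i => w (Sum.inl i)) (fun i => w (Sum.inr i)) :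
        ℕ ⊕ Option (Option (Fin n)) → ℕ) = w := Sum.elim_comp_inl_inr w
    rw [e]
  refine DP.congr (DP.or (DP.eq (DF.var 0) (DF.const 0)) hex) fun v => ?_
  -- the polynomial as a function of the bound variable and the dummies
  obtain ⟨F, hFdef⟩ : ∃ F : ℕ → (Fin n → ℕ) → ℤ,
      ∀ k t, F k t = p (Sum.elim (cons k fun i => v (i + 1)) t) := ⟨_, fun _ _ => rfl⟩
  have hP : ∀ k, P k (fun i => v (i + 1)) ↔ ∃ t : Fin n → ℕ, F k t = 0 := by
    intro k
    have h1 := hp (cons k fun i => v (i + 1))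
    simp only [hFdef]
    exact h1
  have hF : ∀ (m : ℤ) (k k' : ℕ) (t t' : Fin n → ℕ), (k : ℤ) ≡ (k' : ℤ) [ZMOD m] →
      (∀ i, (t i : ℤ) ≡ (t' i : ℤ) [ZMOD m]) → F k t ≡ F k' t' [ZMOD m] := by
    intro m k k' t t' hk ht
    rw [hFdef, hFdef]
    refine poly_modEq p m fun i => ?_
    rcases i with (_ | i) | i
    · exact hk
    · exact Int.ModEq.refl _
    · exact ht i
  -- the value of `Q` at `Sum.elim v b`
  have hQv : ∀ b : Option (Option (Fin n)) → ℕ,
      ((q (Sum.elim v fun _ => b none)).natAbs + v 0) = Ball_Q q (Sum.elim v b) := by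
    intro b
    unfold Ball_Q
    rw [Poly.map_apply]
    have e : (Sum.elim v b ∘ Ball_sig : ℕ ⊕ Fin n → ℕ) = Sum.elim v fun _ => b none := by
      funext i
      rcases i with i | i <;> rfl
    rw [e]
    rfl
  have hpv : ∀ b : Option (Option (Fin n)) → ℕ, p.map Ball_rho (Sum.elim v b) =
      F (b (some none)) (fun i => b (some (some i))) := by
    intro b
    rw [Poly.map_apply, hFdef]
    congr 1
    funext i
    rcases i with (_ | i) | i <;> rfl
  have hbd : ∀ b : Option (Option (Fin n)) → ℕ, ∀ k < v 0, ∀ t : Fin n → ℕ,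
      (∀ i, t i ≤ b none) → |F k t| ≤ ((Ball_Q q (Sum.elim v b) : ℕ) : ℤ) := by
    intro b k hk t ht
    rw [hFdef, ← hQv b]
    refine (qb _).trans ?_
    have h1 : q (Sum.elim (cons k fun i => v (i + 1)) t) ≤ q (Sum.elim v fun _ => b none) := by
      refine qm _ _ fun i => ?_
      rcases i with (_ | i) | i
      · exact hk.le
      · exact le_refl _
      · exact ht i
    refine h1.trans ?_
    have h2 : ((q (Sum.elim v fun _ => b none)).natAbs : ℤ) = q (Sum.elim v fun _ => b none) :=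
      Int.natAbs_of_nonneg (q0 _)
    rw [Nat.cast_add, h2]
    exact le_add_of_nonneg_right (Int.natCast_nonneg _)
  constructor
  · rintro (h0 | ⟨b, hb1, hb2, hb3, hb4⟩)
    · intro z hz
      rw [h0] at hz
      exact absurd hz (Nat.not_lt_zero z)
    · intro z hz
      rw [hP z]
      obtain ⟨t, _, ht⟩ := ball_sound F hF (v 0) (b none) (Ball_Q q (Sum.elim v b))
        (b (some none)) (fun i => b (some (some i))) (hbd b) hb2 hb3 (by
          rw [← hpv b]
          exact Int.natCast_dvd.2 hb4) z hz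
      exact ⟨t, ht⟩
  · intro hall
    by_cases h0 : v 0 = 0
    · exact Or.inl h0
    · refine Or.inr ?_
      have h1 : ∀ k, ∃ t : Fin n → ℕ, k < v 0 → F k t = 0 := by
        intro k
        by_cases hk : k < v 0
        · obtain ⟨t, ht⟩ := (hP k).1 (hall k hk)
          exact ⟨t, fun _ => ht⟩
        · exact ⟨fun _ => 0, fun hk' => absurd hk' hk⟩
      choose t ht using h1
      obtain ⟨u, hu⟩ : ∃ u : ℕ, ∀ k < v 0, ∀ i, t k i ≤ u := by
        refine ⟨∑ k ∈ Finset.range (v 0), ∑ i, t k i, fun k hk i => ?_⟩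
        have e1 : t k i ≤ ∑ i, t k i :=
          Finset.single_le_sum (f := fun i => t k i) (fun _ _ => Nat.zero_le _) (Finset.mem_univ i)
        have e2 : ∑ i, t k i ≤ ∑ k ∈ Finset.range (v 0), ∑ i, t k i :=
          Finset.single_le_sum (f := fun k => ∑ i, t k i) (fun _ _ => Nat.zero_le _)
            (Finset.mem_range.2 hk)
        exact e1.trans e2
      obtain ⟨c, a, hc, ha, hFa⟩ := ball_complete F hF (v 0) u
        ((q (Sum.elim v fun _ => u)).natAbs + v 0) (Nat.pos_of_ne_zero h0) (Nat.le_add_left _ _)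
        (fun k hk => ⟨t k, hu k hk, ht k hk⟩)
      obtain ⟨b, hb0, hb1, hb2⟩ : ∃ b : Option (Option (Fin n)) → ℕ, b none = u ∧
          b (some none) = c ∧ ∀ i, b (some (some i)) = a i :=
        ⟨fun
          | none => u
          | some none => c
          | some (some i) => a i, rfl, rfl, fun _ => rfl⟩
      have hq : (q (Sum.elim v fun _ => u)).natAbs + v 0 = Ball_Q q (Sum.elim v b) := by
        rw [← hQv b, hb0]
      rw [hq] at hc ha hFa
      refine ⟨b, Nat.pos_of_ne_zero h0, ?_, ?_, ?_⟩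
      · rw [Sum.elim_inr, hb1]
        exact hc
      · intro i
        rw [Sum.elim_inr, Sum.elim_inr, Sum.elim_inr, hb0, hb1, hb2]
        exact ha i
      · rw [Sum.elim_inr, hpv b, hb1, ← Int.natCast_dvd]
        have e : (fun i => b (some (some i))) = a := funext hb2
        rw [e]
        exact hFa

/-- The bounded universal quantifier. From `DP.ballBase` with `DP.subst`. -/
theorem DP.ball {P : ℕ → (ℕ → ℕ) → Prop}
    (h : DP (fun v : ℕ → ℕ => P (v 0) (fun i => v (i + 1)))) {f : (ℕ → ℕ) → ℕ} (hf : DF f) :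
    DP (fun v : ℕ → ℕ => ∀ z < f v, P z v) := by
  exact DP.subst (P := fun m v => ∀ z < m, P z v) (DP.ballBase h) hf

end Mrdp
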