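import Mathlib

/-!
# MRDP library, part 0: Diophantine predicates and functions on assignments `α → ℕ`

`DP P` : the predicate `P` on assignments `v : α → ℕ` is Diophantine (Mathlib's `Dioph`).
`DF f` : the function `f` on assignments has a Diophantine graph (Mathlib's `Dioph.DiophFn`).
All closure lemmas are stated in the form that can be used with `apply`/`exact`. For `α = ℕ`
variables are bound in de Bruijn style: the bound variable is `v 0`, the old variables are shifted
by one.
-/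

set_option autoImplicit false

namespace Mrdp

variable {α β : Type}

/-- `P` is a Diophantine predicate on assignments. -/
def DP (P : (α → ℕ) → Prop) : Prop := Dioph {v : α → ℕ | P v}

/-- `f` is a Diophantine function on assignments. -/
def DF (f : (α → ℕ) → ℕ) : Prop := Dioph.DiophFn f

theorem DP.congr {P Q : (α → ℕ) → Prop} (h : DP P) (e : ∀ v, P v ↔ Q v) : DP Q :=
  Dioph.ext h e

theorem DP.and {P Q : (α → ℕ) → Prop} (h : DP P) (h' : DP Q) : DP (fun v => P v ∧ Q v) :=
  Dioph.inter h h'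

theorem DP.or {P Q : (α → ℕ) → Prop} (h : DP P) (h' : DP Q) : DP (fun v => P v ∨ Q v) :=
  Dioph.union h h'

theorem DF.var (i : α) : DF (fun v => v i) := Dioph.proj_dioph i

theorem DF.const (c : ℕ) : DF (fun _ : α → ℕ => c) := Dioph.const_dioph c

theorem DF.add {f g : (α → ℕ) → ℕ} (hf : DF f) (hg : DF g) : DF (fun v => f v + g v) :=
  Dioph.add_dioph hf hg

theorem DF.mul {f g : (α → ℕ) → ℕ} (hf : DF f) (hg : DF g) : DF (fun v => f v * g v) :=
  Dioph.mul_dioph hf hg

theorem DF.sub {f g : (α → ℕ) → ℕ} (hf : DF f) (hg : DF g) : DF (fun v => f v - g v) :=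
  Dioph.sub_dioph hf hg

theorem DF.div {f g : (α → ℕ) → ℕ} (hf : DF f) (hg : DF g) : DF (fun v => f v / g v) :=
  Dioph.div_dioph hf hg

theorem DF.mod {f g : (α → ℕ) → ℕ} (hf : DF f) (hg : DF g) : DF (fun v => f v % g v) :=
  Dioph.mod_dioph hf hg

theorem DF.pow {f g : (α → ℕ) → ℕ} (hf : DF f) (hg : DF g) : DF (fun v => f v ^ g v) :=
  Dioph.pow_dioph hf hg

theorem DP.eq {f g : (α → ℕ) → ℕ} (hf : DF f) (hg : DF g) : DP (fun v => f v = g v) :=
  Dioph.eq_dioph hf hg

theorem DP.ne {f g : (α → ℕ) → ℕ} (hf : DF f) (hg : DF g) : DP (fun v => f v ≠ g v) :=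
  Dioph.ne_dioph hf hg

theorem DP.lt {f g : (α → ℕ) → ℕ} (hf : DF f) (hg : DF g) : DP (fun v => f v < g v) :=
  Dioph.lt_dioph hf hg

theorem DP.le {f g : (α → ℕ) → ℕ} (hf : DF f) (hg : DF g) : DP (fun v => f v ≤ g v) :=
  Dioph.le_dioph hf hg

theorem DP.dvd {f g : (α → ℕ) → ℕ} (hf : DF f) (hg : DF g) : DP (fun v => f v ∣ g v) :=
  Dioph.dvd_dioph hf hg

theorem DF.natAbs_poly (p : Poly α) : DF (fun v => (p v).natAbs) := Dioph.abs_poly_dioph p

/-- Renaming of variables. -/
theorem DP.rename {P : (α → ℕ) → Prop} (h : DP P) (s : α → β) :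
    DP (fun v : β → ℕ => P (fun i => v (s i))) :=
  Dioph.reindex_dioph β s h

theorem DF.rename {f : (α → ℕ) → ℕ} (h : DF f) (s : α → β) :
    DF (fun v : β → ℕ => f (fun i => v (s i))) :=
  Dioph.reindex_diophFn s h

theorem DP.shift {P : (ℕ → ℕ) → Prop} (h : DP P) : DP (fun v : ℕ → ℕ => P (fun i => v (i + 1))) :=
  DP.rename h (fun i => i + 1)

theorem DF.shift {f : (ℕ → ℕ) → ℕ} (h : DF f) : DF (fun v : ℕ → ℕ => f (fun i => v (i + 1))) :=
  DF.rename h (fun i => i + 1)

/-- Existential quantifier over a whole block of variables. -/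
theorem DP.exBlock {P : (α → ℕ) → (β → ℕ) → Prop}
    (h : DP (fun w : α ⊕ β → ℕ => P (fun i => w (Sum.inl i)) (fun i => w (Sum.inr i)))) :
    DP (fun v : α → ℕ => ∃ x : β → ℕ, P v x) :=
  Dioph.ext (Dioph.ex_dioph h) (fun _ => Iff.rfl)

/-- The index map `0 ↦ none`, `k + 1 ↦ some k`. -/
def toOpt : ℕ → Option ℕ
  | 0 => none
  | k + 1 => some k

/-- Existential quantifier; the bound variable is `v 0`. -/
theorem DP.ex {P : ℕ → (ℕ → ℕ) → Prop} (h : DP (fun v : ℕ → ℕ => P (v 0) (fun i => v (i + 1)))) :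
    DP (fun v : ℕ → ℕ => ∃ m, P m v) := by
  have h1 : Dioph {w : Option ℕ → ℕ | P (w none) (fun i => w (some i))} :=
    Dioph.reindex_dioph (Option ℕ) toOpt h
  exact Dioph.ext (Dioph.ex1_dioph h1) (fun _ => Iff.rfl)

/-- A function is Diophantine as soon as its graph is a Diophantine predicate. -/
theorem DF.of_graph {f : (ℕ → ℕ) → ℕ}
    (h : DP (fun v : ℕ → ℕ => v 0 = f (fun i => v (i + 1)))) : DF f := by
  have h1 : Dioph {w : Option ℕ → ℕ | w none = f (fun i => w (some i))} :=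
    Dioph.reindex_dioph (Option ℕ) toOpt h
  exact Dioph.ext h1 (fun w => ⟨fun h => h.symm, fun h => Eq.symm h⟩)

theorem DP.true : DP (fun _ : α → ℕ => True) :=
  DP.congr (DP.eq (DF.const 0) (DF.const 0)) (fun _ => by simp)

theorem DP.false : DP (fun _ : α → ℕ => False) :=
  DP.congr (DP.eq (DF.const 0) (DF.const 1)) (fun _ => by simp)

/-- Substitution of one Diophantine function for the variable `v 0`. -/
theorem DP.subst {P : ℕ → (ℕ → ℕ) → Prop} (h : DP (fun v : ℕ → ℕ => P (v 0) (fun i => v (i + 1))))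
    {f : (ℕ → ℕ) → ℕ} (hf : DF f) : DP (fun v : ℕ → ℕ => P (f v) v) :=
  DP.congr (DP.ex (P := fun m v => m = f v ∧ P m v)
    (DP.and (DP.eq (DF.var 0) (DF.shift hf)) h))
    (fun _ => ⟨fun ⟨_, h1, h2⟩ => h1 ▸ h2, fun h => ⟨_, rfl, h⟩⟩)

/-- Substitution into a unary predicate (assignments over any index type). -/
theorem DP.subst1 {P : ℕ → Prop} (h : DP (fun v : ℕ → ℕ => P (v 0)))
    {f : (α → ℕ) → ℕ} (hf : DF f) : DP (fun v => P (f v)) := by
  have h1 : Dioph {v : Vector3 ℕ 1 | P (v (Fin2.ofNat' 0))} :=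
    Dioph.reindex_dioph (Fin2 1) (fun _ : ℕ => Fin2.ofNat' 0) h
  exact Dioph.dioph_comp h1 (Vector3.cons f Vector3.nil)
    ((vectorAllP_iff_forall _ _).2 (fun i => by
      rcases i with _ | i
      · exact hf
      · exact Fin2.elim0 (C := fun _ => _) i))

/-- Substitution into a binary predicate (assignments over any index type). -/
theorem DP.subst2 {P : ℕ → ℕ → Prop} (h : DP (fun v : ℕ → ℕ => P (v 0) (v 1)))
    {f g : (α → ℕ) → ℕ} (hf : DF f) (hg : DF g) : DP (fun v => P (f v) (g v)) := by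
  have h1 : Dioph {v : Vector3 ℕ 2 | P (v (Fin2.ofNat' 0)) (v (Fin2.ofNat' 1))} :=
    Dioph.reindex_dioph (Fin2 2) (fun i : ℕ => if i = 0 then Fin2.ofNat' 0 else Fin2.ofNat' 1) h
  exact Dioph.dioph_comp2 hf hg h1

/-- Substitution into a ternary predicate (assignments over any index type). -/
theorem DP.subst3 {P : ℕ → ℕ → ℕ → Prop} (h : DP (fun v : ℕ → ℕ => P (v 0) (v 1) (v 2)))
    {f g k : (α → ℕ) → ℕ} (hf : DF f) (hg : DF g) (hk : DF k) :
    DP (fun v => P (f v) (g v) (k v)) := by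
  have h1 : Dioph {v : Vector3 ℕ 3 | P (v (Fin2.ofNat' 0)) (v (Fin2.ofNat' 1)) (v (Fin2.ofNat' 2))} :=
    Dioph.reindex_dioph (Fin2 3) (fun i : ℕ => if i = 0 then Fin2.ofNat' 0 else
      if i = 1 then Fin2.ofNat' 1 else Fin2.ofNat' 2) h
  exact Dioph.dioph_comp h1 (Vector3.cons f (Vector3.cons g (Vector3.cons k Vector3.nil)))
    ((vectorAllP_iff_forall _ _).2 (fun i => by
      rcases i with _ | i
      · exact hf
      rcases i with _ | i
      · exact hg
      rcases i with _ | i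
      · exact hk
      · exact Fin2.elim0 (C := fun _ => _) i))

/-- Composition with a unary Diophantine function. -/
theorem DF.comp1 {F : ℕ → ℕ} (h : DP (fun v : ℕ → ℕ => v 0 = F (v 1)))
    {f : (α → ℕ) → ℕ} (hf : DF f) : DF (fun v => F (f v)) := by
  have h1 : DP (fun w : Option α → ℕ => w none = F (f (fun i => w (some i)))) :=
    DP.subst2 (P := fun a b => a = F b) h (DF.var none) (DF.rename hf some)
  exact Dioph.ext h1 (fun w => ⟨fun h => h.symm, fun h => Eq.symm h⟩)

/-- Composition with a binary Diophantine function. -/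
theorem DF.comp2 {F : ℕ → ℕ → ℕ} (h : DP (fun v : ℕ → ℕ => v 0 = F (v 1) (v 2)))
    {f g : (α → ℕ) → ℕ} (hf : DF f) (hg : DF g) : DF (fun v => F (f v) (g v)) := by
  have h1 : DP (fun w : Option α → ℕ =>
      w none = F (f (fun i => w (some i))) (g (fun i => w (some i)))) :=
    DP.subst3 (P := fun a b c => a = F b c) h (DF.var none) (DF.rename hf some) (DF.rename hg some)
  exact Dioph.ext h1 (fun w => ⟨fun h => h.symm, fun h => Eq.symm h⟩)

/-- Case distinction on a Diophantine predicate whose negation is Diophantine. -/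
theorem DF.ite {P : (ℕ → ℕ) → Prop} [DecidablePred P] (h : DP P) (h' : DP (fun v => ¬ P v))
    {f g : (ℕ → ℕ) → ℕ} (hf : DF f) (hg : DF g) : DF (fun v => if P v then f v else g v) := by
  refine DF.of_graph (DP.congr (DP.or (DP.and (DP.shift h) (DP.eq (DF.var 0) (DF.shift hf)))
    (DP.and (DP.shift h') (DP.eq (DF.var 0) (DF.shift hg)))) (fun v => ?_))
  by_cases hp : P (fun i => v (i + 1)) <;> simp [hp]

/-- Finite conjunctions. -/
theorem DP.forallFin {n : ℕ} {P : Fin n → (α → ℕ) → Prop} (h : ∀ i, DP (P i)) :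
    DP (fun v => ∀ i, P i v) := by
  induction n with
  | zero => exact DP.congr DP.true (fun v => by simp)
  | succ n ih =>
    exact DP.congr (DP.and (h 0) (ih (P := fun i => P i.succ) (fun i => h i.succ)))
      (fun v => by rw [Fin.forall_fin_succ])

end Mrdp
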