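import Pool.Agent.W_mrdp_h26.Base

/-! MRDP library, part 2: binomial coefficients are Diophantine. -/

set_option autoImplicit false

namespace Mrdp

/-- If all `c j < b` (`b ≥ 1`) then `∑_{j<k} c j * b^j < b^k`. Induction on `k`. -/
theorem sum_digits_lt (b : ℕ) (c : ℕ → ℕ) (hc : ∀ j, c j < b) (k : ℕ) :
    ∑ j ∈ Finset.range k, c j * b ^ j < b ^ k := by
  induction k with
  | zero => simp
  | succ k ih =>
    rw [Finset.sum_range_succ, pow_succ]
    have h1 := hc k
    have h2 : c k * b ^ k + b ^ k ≤ b ^ k * b := by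
      calc c k * b ^ k + b ^ k = (c k + 1) * b ^ k := by ring
        _ ≤ b * b ^ k := Nat.mul_le_mul_right _ h1
        _ = b ^ k * b := by ring
    omega

/-- The `k`-th digit of `∑_{j<n} c j * b^j` in base `b` is `c k` for `k < n` (and `0` for `k ≥ n`).
Proof: split the sum as (terms `< k`) + `b^k * (c k + b * rest)`, use `sum_digits_lt`. -/
theorem digit_extract (b : ℕ) (c : ℕ → ℕ) (hc : ∀ j, c j < b) (n k : ℕ) :
    (∑ j ∈ Finset.range n, c j * b ^ j) / b ^ k % b = if k < n then c k else 0 := by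
  have hb : 0 < b := lt_of_le_of_lt (Nat.zero_le _) (hc 0)
  induction k generalizing c n with
  | zero =>
    cases n with
    | zero => simp
    | succ n =>
      rw [Finset.sum_range_succ']
      have h1 : ∑ j ∈ Finset.range n, c (j + 1) * b ^ (j + 1) =
          b * ∑ j ∈ Finset.range n, c (j + 1) * b ^ j := by
        rw [Finset.mul_sum]
        refine Finset.sum_congr rfl fun j _ => ?_
        ring
      rw [h1, pow_zero, mul_one, Nat.div_one, Nat.mul_add_mod, Nat.mod_eq_of_lt (hc 0)]
      simp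
  | succ k ih =>
    cases n with
    | zero => simp
    | succ n =>
      rw [Finset.sum_range_succ']
      have h1 : ∑ j ∈ Finset.range n, c (j + 1) * b ^ (j + 1) =
          b * ∑ j ∈ Finset.range n, c (j + 1) * b ^ j := by
        rw [Finset.mul_sum]
        refine Finset.sum_congr rfl fun j _ => ?_
        ring
      rw [h1, pow_zero, mul_one, pow_succ', ← Nat.div_div_eq_div_mul, Nat.mul_add_div hb,
        Nat.div_eq_of_lt (hc 0), add_zero, ih (fun j => c (j + 1)) (fun j => hc (j + 1)) n]
      by_cases h : k < n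
      · rw [if_pos h, if_pos (by omega)]
      · rw [if_neg h, if_neg (by omega)]

/-- Robinson's formula: with `u = 2^n + 1`, `(u+1)^n = ∑ C(n,j) u^j` and `C(n,j) ≤ 2^n < u`. -/
theorem choose_formula (n k : ℕ) :
    n.choose k = (2 ^ n + 2) ^ n / (2 ^ n + 1) ^ k % (2 ^ n + 1) := by
  have h1 : (2 ^ n + 2) ^ n = ∑ j ∈ Finset.range (n + 1), n.choose j * (2 ^ n + 1) ^ j := by
    have h2 : (2 ^ n + 2) ^ n = ((2 ^ n + 1) + 1) ^ n := rfl
    rw [h2, add_pow]
    refine Finset.sum_congr rfl fun j _ => ?_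
    rw [one_pow, mul_one, mul_comm]
    rfl
  rw [h1, digit_extract (2 ^ n + 1) (fun j => n.choose j) (fun j => by
    have := Nat.choose_le_two_pow n j
    omega) (n + 1) k]
  by_cases h : k < n + 1
  · rw [if_pos h]
  · rw [if_neg h, Nat.choose_eq_zero_of_lt (by omega)]

theorem DF.choose {α : Type} {f g : (α → ℕ) → ℕ} (hf : DF f) (hg : DF g) :
    DF (fun v => (f v).choose (g v)) := by
  have h2 : DF (fun v => 2 ^ f v) := DF.pow (DF.const 2) hf
  have h3 := DF.mod (DF.div (DF.pow (DF.add h2 (DF.const 2)) hf)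
    (DF.pow (DF.add h2 (DF.const 1)) hg)) (DF.add h2 (DF.const 1))
  have h4 : (fun v => (f v).choose (g v)) =
      fun v => (2 ^ f v + 2) ^ f v / (2 ^ f v + 1) ^ g v % (2 ^ f v + 1) := by
    funext v
    exact choose_formula _ _
  rw [h4]
  exact h3

end Mrdp
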