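import Pool.Agent.W_mrdp_h26.Choose

/-! MRDP library, part 3: factorials are Diophantine. -/

set_option autoImplicit false

namespace Mrdp

open Nat

theorem Fact_bern (a b : ℕ) (k : ℕ) : (a + b) ^ k ≤ a ^ k + k * b * (a + b) ^ (k - 1) := by
  induction k with
  | zero => simp
  | succ k ih =>
    rw [Nat.add_sub_cancel]
    rcases Nat.eq_zero_or_pos k with rfl | hk
    · simp
    have h1 : (a + b) ^ (k - 1) * (a + b) = (a + b) ^ k := by
      rw [← pow_succ, Nat.sub_add_cancel hk]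
    have h2 : (a + b) ^ (k - 1) * a ≤ (a + b) ^ k := by
      rw [← h1]
      exact Nat.mul_le_mul_left _ (Nat.le_add_right a b)
    calc (a + b) ^ (k + 1) = (a + b) ^ k * a + b * (a + b) ^ k := by ring
      _ ≤ (a ^ k + k * b * (a + b) ^ (k - 1)) * a + b * (a + b) ^ k :=
        Nat.add_le_add_right (Nat.mul_le_mul_right _ ih) _
      _ = a ^ (k + 1) + k * b * ((a + b) ^ (k - 1) * a) + b * (a + b) ^ k := by ring
      _ ≤ a ^ (k + 1) + k * b * (a + b) ^ k + b * (a + b) ^ k :=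
        Nat.add_le_add_right (Nat.add_le_add_left (Nat.mul_le_mul_left _ h2) _) _
      _ = a ^ (k + 1) + (k + 1) * b * (a + b) ^ k := by ring

/-- If `r > n^2 * (n! + 1)` and `n ≤ r` then `n! = r^n / C(r,n)`.
Proof. Let `D = r.descFactorial n = n! * C(r,n)`. `D ≤ r^n` (`Nat.descFactorial_le_pow`) gives
`n! * C ≤ r^n`. Also `D ≥ (r - n)^n` (`Nat.pow_sub_le_descFactorial`) and Bernoulli
(`one_add_mul_le_pow` or induction) `(r-n)^n + n*n*r^(n-1) ≥ r^n`. So `r^n - D ≤ n^2 r^(n-1)`.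
And `n! * C = D ≥ r^(n-1) (r - n^2) > r^(n-1) * n^2 * n! ≥ n! * (r^n - D)`, so `r^n - D < C`, i.e.
`r^n < (n! + 1) * C`. (`n = 0` separately.) -/
theorem factorial_of_large (n r : ℕ) (hr : n ^ 2 * (n ! + 1) < r) :
    n ! = r ^ n / r.choose n := by
  symm
  rcases Nat.eq_zero_or_pos n with rfl | hn
  · simp
  have hnr : n ≤ r := by
    have h1 : n ≤ n ^ 2 := Nat.le_self_pow (by norm_num) n
    have h2 : n ^ 2 ≤ n ^ 2 * (n ! + 1) := Nat.le_mul_of_pos_right _ (Nat.succ_pos _)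
    omega
  have hD := Nat.descFactorial_eq_factorial_mul_choose r n
  have hlo : n ! * r.choose n ≤ r ^ n := by
    rw [← hD]
    exact Nat.descFactorial_le_pow r n
  refine Nat.div_eq_of_lt_le hlo ?_
  obtain ⟨a, ha⟩ : ∃ a, r = a + n := ⟨r - n, (Nat.sub_add_cancel hnr).symm⟩
  have h1 : r ^ n ≤ r.descFactorial n + n ^ 2 * r ^ (n - 1) := by
    have h2 : a ^ n ≤ r.descFactorial n := by
      refine le_trans (Nat.pow_le_pow_left ?_ n) (Nat.pow_sub_le_descFactorial r n)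
      omega
    have h3 := Fact_bern a n n
    rw [← ha] at h3
    calc r ^ n ≤ a ^ n + n * n * r ^ (n - 1) := h3
      _ ≤ r.descFactorial n + n ^ 2 * r ^ (n - 1) := by
        rw [pow_two]
        exact Nat.add_le_add_right h2 _
  have hr0 : 0 < r := by omega
  have hp : 0 < r ^ (n - 1) := Nat.pow_pos hr0
  have hpr : r ^ n = r * r ^ (n - 1) := by
    obtain ⟨j, hj⟩ : ∃ j, n = j + 1 := ⟨n - 1, by omega⟩
    rw [hj, Nat.add_sub_cancel, pow_succ']
  have h4 : n ^ 2 * (n ! + 1) * r ^ (n - 1) < r ^ n := by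
    rw [hpr]
    exact Nat.mul_lt_mul_of_pos_right hr hp
  have h5 : n ^ 2 * n ! * r ^ (n - 1) < r.descFactorial n := by
    have : n ^ 2 * (n ! + 1) * r ^ (n - 1) =
        n ^ 2 * n ! * r ^ (n - 1) + n ^ 2 * r ^ (n - 1) := by ring
    omega
  have h6 : n ! * r ^ n < n ! * ((n ! + 1) * r.choose n) := by
    calc n ! * r ^ n ≤ n ! * (r.descFactorial n + n ^ 2 * r ^ (n - 1)) :=
          Nat.mul_le_mul_left _ h1
      _ = n ! * r.descFactorial n + n ^ 2 * n ! * r ^ (n - 1) := by ring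
      _ < n ! * r.descFactorial n + r.descFactorial n := Nat.add_lt_add_left h5 _
      _ = n ! * ((n ! + 1) * r.choose n) := by rw [hD]; ring
  exact Nat.lt_of_mul_lt_mul_left h6

/-- `n^2 (n!+1) < (n+1)^(n+3)`, using `n! ≤ n^n`. -/
theorem factorial_formula (n : ℕ) :
    n ! = ((n + 1) ^ (n + 3)) ^ n / ((n + 1) ^ (n + 3)).choose n := by
  refine factorial_of_large n _ ?_
  rcases Nat.eq_zero_or_pos n with rfl | hn
  · simp
  have h1 : n ! ≤ (n + 1) ^ n := (Nat.factorial_le_pow n).trans (Nat.pow_le_pow_left (by omega) n)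
  have h2 : 1 ≤ (n + 1) ^ n := Nat.one_le_pow _ _ (by omega)
  have h3 : n ! + 1 ≤ (n + 1) ^ (n + 1) := by
    calc n ! + 1 ≤ (n + 1) ^ n * 2 := by omega
      _ ≤ (n + 1) ^ n * (n + 1) := Nat.mul_le_mul_left _ (by omega)
      _ = (n + 1) ^ (n + 1) := by rw [pow_succ]
  have h4 : n ^ 2 < (n + 1) ^ 2 := Nat.pow_lt_pow_left (by omega) (by norm_num)
  calc n ^ 2 * (n ! + 1) ≤ n ^ 2 * (n + 1) ^ (n + 1) := Nat.mul_le_mul_left _ h3
    _ < (n + 1) ^ 2 * (n + 1) ^ (n + 1) :=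
      Nat.mul_lt_mul_of_pos_right h4 (Nat.pow_pos (by omega))
    _ = (n + 1) ^ (n + 3) := by rw [← pow_add]; congr 1; omega

theorem DF.factorial {α : Type} {f : (α → ℕ) → ℕ} (hf : DF f) : DF (fun v => (f v)!) := by
  have h1 : (fun v => (f v)!) =
      fun v => ((f v + 1) ^ (f v + 3)) ^ f v / ((f v + 1) ^ (f v + 3)).choose (f v) := by
    funext v
    exact factorial_formula (f v)
  rw [h1]
  have h2 : DF (fun v => (f v + 1) ^ (f v + 3)) :=
    DF.pow (DF.add hf (DF.const 1)) (DF.add hf (DF.const 3))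
  exact DF.div (DF.pow h2 hf) (DF.choose h2 hf)

/-- `n.descFactorial k = k! * n.choose k`. -/
theorem DF.descFactorial {α : Type} {f g : (α → ℕ) → ℕ} (hf : DF f) (hg : DF g) :
    DF (fun v => (f v).descFactorial (g v)) := by
  have h1 : (fun v => (f v).descFactorial (g v)) = fun v => (g v)! * (f v).choose (g v) := by
    funext v
    exact Nat.descFactorial_eq_factorial_mul_choose (f v) (g v)
  rw [h1]
  exact DF.mul (DF.factorial hg) (DF.choose hf hg)

end Mrdp
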