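import Pool.Agent.W_mrdp_h26.Base

/-! MRDP library, part 7a: pairing, Gödel's beta function, graphs of unary partial functions. -/

set_option autoImplicit false

namespace Mrdp

open Nat

/-- The graph of a unary partial function is Diophantine. -/
def DG (f : ℕ →. ℕ) : Prop := DP (fun v : ℕ → ℕ => v 1 ∈ f (v 0))

/-- Use in arbitrary assignments. -/
theorem DG.use {f : ℕ →. ℕ} (h : DG f) {α : Type} {a b : (α → ℕ) → ℕ} (ha : DF a) (hb : DF b) :
    DP (fun v => b v ∈ f (a v)) :=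
  DP.subst2 (P := fun x y => y ∈ f x) h ha hb

/-- `Nat.pair` is Diophantine (`if a < b then b*b+a else a*a+a+b`). -/
theorem DF.natPair {α : Type} {f g : (α → ℕ) → ℕ} (hf : DF f) (hg : DF g) :
    DF (fun v => Nat.pair (f v) (g v)) := by
  refine DF.comp2 (F := Nat.pair) ?_ hf hg
  refine DP.congr (DP.or
    (DP.and (DP.lt (DF.var 1) (DF.var 2))
      (DP.eq (DF.var 0) (DF.add (DF.mul (DF.var 2) (DF.var 2)) (DF.var 1))))
    (DP.and (DP.le (DF.var 2) (DF.var 1))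
      (DP.eq (DF.var 0) (DF.add (DF.add (DF.mul (DF.var 1) (DF.var 1)) (DF.var 1)) (DF.var 2)))))
    fun v => ?_
  rw [Nat.pair]
  by_cases h : v 1 < v 2
  · rw [if_pos h]
    constructor
    · rintro (⟨_, h1⟩ | ⟨h1, _⟩)
      · exact h1
      · exact absurd h (not_lt.2 h1)
    · intro h1
      exact Or.inl ⟨h, h1⟩
  · rw [if_neg h]
    constructor
    · rintro (⟨h1, _⟩ | ⟨_, h1⟩)
      · exact absurd h1 h
      · exact h1
    · intro h1
      exact Or.inr ⟨not_lt.1 h, h1⟩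

/-- `(Nat.unpair n).1 = a ↔ ∃ b, Nat.pair a b = n`. -/
theorem DF.unpairFst {α : Type} {f : (α → ℕ) → ℕ} (hf : DF f) :
    DF (fun v => (Nat.unpair (f v)).1) := by
  refine DF.comp1 (F := fun n => (Nat.unpair n).1) ?_ hf
  refine DP.congr (DP.ex (P := fun m v => Nat.pair (v 0) m = v 1)
    (DP.eq (DF.natPair (DF.var 1) (DF.var 0)) (DF.var 2))) fun v => ?_
  constructor
  · rintro ⟨m, hm⟩
    rw [← hm, Nat.unpair_pair]
  · intro h
    refine ⟨(Nat.unpair (v 1)).2, ?_⟩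
    rw [h, Nat.pair_unpair]

theorem DF.unpairSnd {α : Type} {f : (α → ℕ) → ℕ} (hf : DF f) :
    DF (fun v => (Nat.unpair (f v)).2) := by
  refine DF.comp1 (F := fun n => (Nat.unpair n).2) ?_ hf
  refine DP.congr (DP.ex (P := fun m v => Nat.pair m (v 0) = v 1)
    (DP.eq (DF.natPair (DF.var 0) (DF.var 1)) (DF.var 2))) fun v => ?_
  constructor
  · rintro ⟨m, hm⟩
    rw [← hm, Nat.unpair_pair]
  · intro h
    refine ⟨(Nat.unpair (v 1)).1, ?_⟩
    rw [h, Nat.pair_unpair]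

/-- Gödel's beta function `Nat.beta n i = n.unpair.1 % ((i+1) * n.unpair.2 + 1)`. -/
theorem DF.beta {α : Type} {f g : (α → ℕ) → ℕ} (hf : DF f) (hg : DF g) :
    DF (fun v => Nat.beta (f v) (g v)) := by
  have h : DF (fun v : α → ℕ => (Nat.unpair (f v)).1 %
      ((g v + 1) * (Nat.unpair (f v)).2 + 1)) :=
    DF.mod (DF.unpairFst hf)
      (DF.add (DF.mul (DF.add hg (DF.const 1)) (DF.unpairSnd hf)) (DF.const 1))
  exact h

theorem DG.zero : DG (pure 0) := by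
  refine DP.congr (DP.eq (DF.var 1) (DF.const 0)) fun v => ?_
  exact Part.mem_some_iff.symm

theorem DG.succ : DG (Nat.succ : ℕ → ℕ) := by
  refine DP.congr (DP.eq (DF.var 1) (DF.add (DF.var 0) (DF.const 1))) fun v => ?_
  exact Part.mem_some_iff.symm

theorem DG.left : DG (fun n : ℕ => n.unpair.1 : ℕ → ℕ) := by
  refine DP.congr (DP.eq (DF.var 1) (DF.unpairFst (DF.var 0))) fun v => ?_
  exact Part.mem_some_iff.symm

theorem DG.right : DG (fun n : ℕ => n.unpair.2 : ℕ → ℕ) := by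
  refine DP.congr (DP.eq (DF.var 1) (DF.unpairSnd (DF.var 0))) fun v => ?_
  exact Part.mem_some_iff.symm

theorem DG.pair {f g : ℕ →. ℕ} (hf : DG f) (hg : DG g) :
    DG (fun n => Nat.pair <$> f n <*> g n) := by
  refine DP.congr (DP.ex (P := fun a v => ∃ b, (a ∈ f (v 0) ∧ b ∈ g (v 0)) ∧ v 1 = Nat.pair a b)
    (DP.ex (P := fun b v => (v 0 ∈ f (v 1) ∧ b ∈ g (v 1)) ∧ v 2 = Nat.pair (v 0) b)
      (DP.and (DP.and (DG.use hf (DF.var 2) (DF.var 1)) (DG.use hg (DF.var 2) (DF.var 0)))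
        (DP.eq (DF.var 3) (DF.natPair (DF.var 1) (DF.var 0)))))) fun v => ?_
  simp only [Seq.seq, Part.map_eq_map, Part.mem_bind_iff, Part.mem_map_iff]
  constructor
  · rintro ⟨a, b, ⟨ha, hb⟩, h⟩
    exact ⟨Nat.pair a, ⟨a, ha, rfl⟩, b, hb, h.symm⟩
  · rintro ⟨_, ⟨a, ha, rfl⟩, b, hb, h⟩
    exact ⟨a, b, ⟨ha, hb⟩, h.symm⟩

theorem DG.comp {f g : ℕ →. ℕ} (hf : DG f) (hg : DG g) : DG (fun n => g n >>= f) := by
  refine DP.congr (DP.ex (P := fun a v => a ∈ g (v 0) ∧ v 1 ∈ f a)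
    (DP.and (DG.use hg (DF.var 1) (DF.var 0)) (DG.use hf (DF.var 0) (DF.var 2)))) fun v => ?_
  exact Part.mem_bind_iff.symm

end Mrdp
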