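import Pool.Agent.W_mrdp_h26.GrA
import Pool.Agent.W_mrdp_h26.Ball

/-! MRDP library, part 7b: primitive recursion and minimization. -/

set_option autoImplicit false

namespace Mrdp

open Nat

theorem GrB_rec (f g : ℕ →. ℕ) (a : ℕ) (n r : ℕ) :
    (r ∈ (n.rec (f a) fun y IH => do let i ← IH; g (Nat.pair a (Nat.pair y i)) : Part ℕ)) ↔
      ∃ c : ℕ → ℕ, c 0 ∈ f a ∧ (∀ y < n, c (y + 1) ∈ g (Nat.pair a (Nat.pair y (c y)))) ∧
        c n = r := by
  induction n generalizing r with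
  | zero =>
    constructor
    · intro h
      exact ⟨fun _ => r, h, fun y hy => absurd hy (Nat.not_lt_zero _), rfl⟩
    · rintro ⟨c, h0, -, rfl⟩
      exact h0
  | succ n ih =>
    constructor
    · intro h
      obtain ⟨i, hi, hr⟩ := Part.mem_bind_iff.1 h
      obtain ⟨c, h0, hc, hn⟩ := (ih i).1 hi
      refine ⟨fun k => if k ≤ n then c k else r, ?_, ?_, ?_⟩
      · simpa using h0
      · intro y hy
        beta_reduce
        rw [if_pos (Nat.lt_succ_iff.1 hy)]
        rcases Nat.lt_or_ge y n with h1 | h1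
        · rw [if_pos (show y + 1 ≤ n from h1)]
          exact hc y h1
        · have h2 : y = n := by omega
          subst h2
          rw [if_neg (by omega), hn]
          exact hr
      · beta_reduce
        rw [if_neg (by omega)]
    · rintro ⟨c, h0, hc, rfl⟩
      refine Part.mem_bind_iff.2 ⟨c n, (ih _).2 ⟨c, h0, fun y hy => hc y (by omega), rfl⟩, ?_⟩
      exact hc n (by omega)

theorem GrB_beta (c : ℕ → ℕ) (n : ℕ) : ∃ s : ℕ, ∀ k ≤ n, Nat.beta s k = c k := by
  refine ⟨Nat.unbeta ((List.range (n + 1)).map c), fun k hk => ?_⟩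
  have h := Nat.beta_unbeta_coe ((List.range (n + 1)).map c)
    ⟨k, by rw [List.length_map, List.length_range]; omega⟩
  simpa using h

theorem GrB_rec_beta (f g : ℕ →. ℕ) (a : ℕ) (n r : ℕ) :
    (r ∈ (n.rec (f a) fun y IH => do let i ← IH; g (Nat.pair a (Nat.pair y i)) : Part ℕ)) ↔
      ∃ s : ℕ, Nat.beta s 0 ∈ f a ∧
        (∀ y < n, Nat.beta s (y + 1) ∈ g (Nat.pair a (Nat.pair y (Nat.beta s y)))) ∧
        Nat.beta s n = r := by
  rw [GrB_rec]
  constructor
  · rintro ⟨c, h0, hc, hn⟩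
    obtain ⟨s, hs⟩ := GrB_beta c n
    refine ⟨s, ?_, ?_, ?_⟩
    · rw [hs 0 (Nat.zero_le _)]
      exact h0
    · intro y hy
      rw [hs (y + 1) hy, hs y hy.le]
      exact hc y hy
    · rw [hs n le_rfl]
      exact hn
  · rintro ⟨s, h0, hc, hn⟩
    exact ⟨Nat.beta s, h0, hc, hn⟩

/-- Primitive recursion: `r ∈ n.rec (f a) ...` iff there is a code `s` with
`Nat.beta s 0 ∈ f a`, `∀ y < n, Nat.beta s (y+1) ∈ g (pair a (pair y (Nat.beta s y)))`,
`Nat.beta s n = r`. (First prove by induction on `n`: `r` is a value iff there is a function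
`c : ℕ → ℕ` with `c 0 ∈ f a`, `∀ y < n, c (y+1) ∈ g (..(c y))`, `c n = r`; then
`Nat.beta_unbeta_coe` gives a code for `c 0, ..., c n`. `DP.ball` for the bounded quantifier.) -/
theorem DG.prec {f g : ℕ →. ℕ} (hf : DG f) (hg : DG g) :
    DG (Nat.unpaired fun a n =>
      n.rec (f a) fun y IH => do let i ← IH; g (Nat.pair a (Nat.pair y i))) := by
  refine DP.congr (DP.ex (P := fun s v => Nat.beta s 0 ∈ f (Nat.unpair (v 0)).1 ∧
    (∀ y < (Nat.unpair (v 0)).2, Nat.beta s (y + 1) ∈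
      g (Nat.pair (Nat.unpair (v 0)).1 (Nat.pair y (Nat.beta s y)))) ∧
    Nat.beta s (Nat.unpair (v 0)).2 = v 1) ?_) (fun v => (GrB_rec_beta f g _ _ _).symm)
  refine DP.and ?_ (DP.and ?_ ?_)
  · exact DG.use hf (DF.unpairFst (DF.var 1)) (DF.beta (DF.var 0) (DF.const 0))
  · refine DP.ball (P := fun y v => Nat.beta (v 0) (y + 1) ∈
      g (Nat.pair (Nat.unpair (v 1)).1 (Nat.pair y (Nat.beta (v 0) y)))) ?_
      (DF.unpairSnd (DF.var 1))
    exact DG.use hg (DF.natPair (DF.unpairFst (DF.var 2))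
      (DF.natPair (DF.var 0) (DF.beta (DF.var 1) (DF.var 0))))
      (DF.beta (DF.var 1) (DF.add (DF.var 0) (DF.const 1)))
  · exact DP.eq (DF.beta (DF.var 0) (DF.unpairSnd (DF.var 1))) (DF.var 2)

/-- Minimization: `n ∈ rfind ..` iff `0 ∈ f (pair a n)` and for all `m < n` there is `y` with
`y + 1 ∈ f (pair a m)` (`Nat.mem_rfind`, `DP.ball`). -/
theorem DG.rfind {f : ℕ →. ℕ} (hf : DG f) :
    DG (fun a => Nat.rfind fun n => (fun m => decide (m = 0)) <$> f (Nat.pair a n)) := by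
  refine DP.congr (P := fun v => 0 ∈ f (Nat.pair (v 0) (v 1)) ∧
    ∀ m < v 1, ∃ y, y + 1 ∈ f (Nat.pair (v 0) m)) ?_ ?_
  · refine DP.and ?_ ?_
    · exact DG.use hf (DF.natPair (DF.var 0) (DF.var 1)) (DF.const 0)
    · refine DP.ball (P := fun m v => ∃ y, y + 1 ∈ f (Nat.pair (v 0) m)) ?_ (DF.var 1)
      refine DP.ex (P := fun y v => y + 1 ∈ f (Nat.pair (v 1) (v 0))) ?_
      exact DG.use hf (DF.natPair (DF.var 2) (DF.var 1)) (DF.add (DF.var 0) (DF.const 1))
  · intro v
    rw [Nat.mem_rfind]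
    refine and_congr ?_ ?_
    · rw [Part.map_eq_map, Part.mem_map_iff]
      constructor
      · intro h
        exact ⟨0, h, by simp⟩
      · rintro ⟨y, hy, h0⟩
        have : y = 0 := by simpa using h0
        rwa [this] at hy
    · refine forall_congr' fun m => ?_
      refine imp_congr_right fun _ => ?_
      rw [Part.map_eq_map, Part.mem_map_iff]
      constructor
      · rintro ⟨y, hy⟩
        exact ⟨y + 1, hy, by simp⟩
      · rintro ⟨y, hy, h0⟩
        have : y ≠ 0 := by simpa using h0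
        obtain ⟨z, rfl⟩ := Nat.exists_eq_succ_of_ne_zero this
        exact ⟨z, hy⟩

end Mrdp
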